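import Pool.Agent.ABCP.Stmts
import Pool.Agent.Helper25_ABCP.TRC

/-!
# Row BZE of squad ABCP
-/

set_option autoImplicit false
set_option linter.unusedSectionVars false

namespace Pool.Agent.ABCP.H77

open Matrix Pool.Agent.ABCP Pool.Agent.ABCP.H25
open Pool.Agent.ABC3 (HasDeg HomV)

theorem finrank_inf_ker {K Q : Type} [Field K] [AddCommGroup Q] [Module K Q]
    [FiniteDimensional K Q] (P : Submodule K Q) (f : Q →ₗ[K] K) (q : Q) (hq : q ∈ P)
    (h1 : f q = 1) :
    Module.finrank K P = Module.finrank K (P ⊓ LinearMap.ker f : Submodule K Q) + 1 := by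
  have hsup : P ⊔ LinearMap.ker f = ⊤ := by
    rw [eq_top_iff]
    intro x _
    have hx : x = f x • q + (x - f x • q) := by abel
    rw [hx]
    refine Submodule.add_mem_sup (P.smul_mem _ hq) ?_
    rw [LinearMap.mem_ker, map_sub, map_smul, h1, smul_eq_mul, mul_one, sub_self]
  have hrange : LinearMap.range f = ⊤ := by
    rw [LinearMap.range_eq_top]
    intro y
    exact ⟨y • q, by rw [map_smul, h1, smul_eq_mul, mul_one]⟩
  have h2 := Submodule.finrank_sup_add_finrank_inf_eq P (LinearMap.ker f)
  have h3 := LinearMap.finrank_range_add_finrank_ker f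
  rw [hrange, finrank_top, Module.finrank_self] at h3
  rw [hsup, finrank_top] at h2
  omega

section basic
variable {p : ℕ} {K Q B : Type} [Field K] [AddCommGroup Q] [Module K Q] [Fintype B]
  [DecidableEq B]

theorem homV_mulVec {deg : B → ℤ} {k d : ℤ} {M : Matrix B B K} {v : B → K}
    (hM : HasDeg deg k M) (hv : HomV deg d v) : HomV deg (d + k) (M.mulVec v) := by
  intro s hs
  have hs' : ∑ j, M s j * v j ≠ 0 := hs
  obtain ⟨j, _, hj⟩ := Finset.exists_ne_zero_of_sum_ne_zero hs'
  have h1 := hM s j (left_ne_zero_of_mul hj)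
  have h2 := hv j (right_ne_zero_of_mul hj)
  omega

theorem homV_act_pow (S : Sys p K Q B) (q : Q) (n : ℕ) {d : ℤ} {v : B → K}
    (hv : HomV S.deg d v) : HomV S.deg (d + n) ((S.act q ^ n).mulVec v) :=
  homV_mulVec (hasDeg_act_pow S q n) hv

theorem e_mul_g {e g : Matrix B B K} (he : e * e = e) (hg : e * g * e = g) : e * g = g := by
  have : e * (e * g * e) = e * g * e := by
    rw [← mul_assoc, ← mul_assoc, he]
  rwa [hg] at this

theorem e_fix {e g : Matrix B B K} (he : e * e = e) (hg : e * g * e = g) (v : B → K) :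
    e.mulVec (g.mulVec v) = g.mulVec v := by
  rw [Matrix.mulVec_mulVec, e_mul_g he hg]

/-- the subspace `P · (im e)` is monotone in `P` -/
theorem pc_mono (S : Sys p K Q B) (e : Matrix B B K) {P P' : Submodule K Q} (h : P' ≤ P)
    (d : ℤ) : PC S e P' d ≤ PC S e P d := by
  unfold PC
  apply Submodule.span_mono
  rintro v ⟨x, hx, w, hw, rfl⟩
  exact ⟨x, h hx, w, hw, rfl⟩

theorem prod_comm_g (S : Sys p K Q B) {P : Submodule K Q} {g : Matrix B B K}
    (hg : Com S P g) :
    ∀ l : List Q, (∀ x ∈ l, x ∈ P) →
      (l.map (fun x => S.act x)).prod * g = g * (l.map (fun x => S.act x)).prod := by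
  intro l
  induction l with
  | nil => intro _; simp
  | cons a l ih =>
    intro h
    rw [List.map_cons, List.prod_cons, mul_assoc, ih (fun x hx => h x (List.mem_cons_of_mem _ hx)),
      ← mul_assoc, hg a (h a List.mem_cons_self), mul_assoc]

/-- powers of the action preserve the image of `e` -/
theorem cd_pow (S : Sys p K Q B) {e : Matrix B B K} (he : End0 S e) (q : Q) (n : ℕ) {d : ℤ}
    {v : B → K} (hv : v ∈ Cd S e d) : (S.act q ^ n).mulVec v ∈ Cd S e (d + n) := by
  refine ⟨homV_act_pow S q n hv.1, ?_⟩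
  have hc : Commute (S.act q) e := he.2 q Submodule.mem_top
  rw [Matrix.mulVec_mulVec, ← (hc.pow_left n).eq, ← Matrix.mulVec_mulVec, hv.2]

end basic

theorem bze_core {p : ℕ} [hp : Fact p.Prime] {K Q B : Type} [Field K] [AddCommGroup Q]
    [Module K Q] [FiniteDimensional K Q] [Fintype B] [DecidableEq B] (S : Sys p K Q B) (ι : Type)
    [Fintype ι] (ev : ι → (Q →ₗ[K] K)) (e : Matrix B B K) (D : ℤ)
    (he : e * e = e) (he0 : End0 S e)
    (hstar : ∀ P : Submodule K Q, P ≠ ⊥ → P ≠ ⊤ → StarP S ev e P D) :
    ∀ (n : ℕ) (P : Submodule K Q), Module.finrank K P = n → P ≠ ⊤ →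
      ∀ v, HomV S.deg D v → e.mulVec v = v → AnnP S P v → v ∈ PC S e P D := by
  intro n
  induction n with
  | zero =>
    intro P hP _ v _ _ hann
    have h := hann [] (by simp) (by simp [hP])
    simp only [List.map_nil, List.prod_nil, Matrix.one_mulVec] at h
    rw [h]
    exact Submodule.zero_mem _
  | succ n ih =>
    intro P hP hPt v hv hev hann
    have hPb : P ≠ ⊥ := by
      rintro rfl
      simp at hP
    obtain ⟨g, hg, hsum⟩ := hstar P hPb hPt
    have hex : ∀ c, ∃ q : Q, ¬ P ≤ LinearMap.ker (ev c) → q ∈ P ∧ ev c q = 1 := by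
      intro c
      by_cases hc : P ≤ LinearMap.ker (ev c)
      · exact ⟨0, fun h => absurd hc h⟩
      · obtain ⟨x, hx, hx'⟩ := Set.not_subset.1 hc
        have hne : ev c x ≠ 0 := fun h => hx' (LinearMap.mem_ker.2 h)
        refine ⟨(ev c x)⁻¹ • x, fun _ => ⟨P.smul_mem _ hx, ?_⟩⟩
        rw [map_smul, smul_eq_mul, inv_mul_cancel₀ hne]
    choose q hq using hex
    have hv2 := hsum q hq v hv hev
    rw [hv2]
    refine Submodule.sum_mem _ fun c _ => ?_
    obtain ⟨hgd, hgc, hge, hg0⟩ := hg c
    have hp2 := hp.out.two_le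
    by_cases hc : P ≤ LinearMap.ker (ev c)
    · have h0 := hg0 hc
      rw [h0]
      simp [Tr]
    · obtain ⟨hqP, hq1⟩ := hq c hc
      unfold Tr
      rw [Matrix.sum_mulVec]
      refine Submodule.sum_mem _ fun i hi => ?_
      rw [Finset.mem_range] at hi
      -- the vector `g q^(p-1-i) v`
      have hw : (g c).mulVec ((S.act (q c) ^ (p - 1 - i)).mulVec v) ∈ Cd S e (D - i) := by
        refine ⟨?_, e_fix he hge _⟩
        have h1 := homV_mulVec hgd (homV_act_pow S (q c) (p - 1 - i) hv)
        have e1 : D + ((p - 1 - i : ℕ) : ℤ) + -((p : ℤ) - 1) = D - i := by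
          have : ((p - 1 - i : ℕ) : ℤ) = (p : ℤ) - 1 - i := by omega
          rw [this]
          ring
        rwa [e1] at h1
      rw [mul_assoc, ← Matrix.mulVec_mulVec, ← Matrix.mulVec_mulVec]
      rcases Nat.eq_zero_or_pos i with hi0 | hi0
      · -- the term `i = 0`
        subst hi0
        rw [pow_zero, Matrix.one_mulVec]
        rw [Nat.cast_zero, sub_zero] at hw
        have hfr := finrank_inf_ker P (ev c) (q c) hqP hq1
        have hPc : Module.finrank K (P ⊓ LinearMap.ker (ev c) : Submodule K Q) = n := by omega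
        have hPct : P ⊓ LinearMap.ker (ev c) ≠ ⊤ := by
          intro h
          apply hPt
          rw [eq_top_iff, ← h]
          exact inf_le_left
        have hann2 : AnnP S (P ⊓ LinearMap.ker (ev c))
            ((g c).mulVec ((S.act (q c) ^ (p - 1 - 0)).mulVec v)) := by
          intro l hl hlen
          have e1 : ((l.map (fun x => S.act x)).prod).mulVec
              ((g c).mulVec ((S.act (q c) ^ (p - 1 - 0)).mulVec v)) =
              (g c).mulVec ((((l ++ List.replicate (p - 1) (q c)).map
                (fun x => S.act x)).prod).mulVec v) := by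
            rw [List.map_append, List.prod_append, List.map_replicate, List.prod_replicate,
              Nat.sub_zero]
            rw [Matrix.mulVec_mulVec _ _ (g c), prod_comm_g S hgc l hl]
            simp only [← Matrix.mulVec_mulVec]
          rw [e1, hann (l ++ List.replicate (p - 1) (q c))]
          · exact Matrix.mulVec_zero _
          · intro x hx
            rcases List.mem_append.1 hx with h | h
            · exact (hl x h).1
            · rw [(List.mem_replicate.1 h).2]
              exact hqP
          · rw [List.length_append, hlen, List.length_replicate, hfr]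
            ring
        exact pc_mono S e inf_le_left D (ih (P ⊓ LinearMap.ker (ev c)) hPc hPct _ hw.1 hw.2 hann2)
      · -- the terms with `1 ≤ i`
        obtain ⟨j, rfl⟩ : ∃ j, i = j + 1 := ⟨i - 1, by omega⟩
        have h1 := cd_pow S he0 (q c) j hw
        have e1 : D - ((j + 1 : ℕ) : ℤ) + j = D - 1 := by
          push_cast
          ring
        rw [e1] at h1
        refine Submodule.subset_span ⟨q c, hqP, _, h1, ?_⟩
        rw [Matrix.mulVec_mulVec _ (S.act (q c)) (S.act (q c) ^ j), ← pow_succ']

theorem bze : Pool.Agent.ABCP.BZEStmt := by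
  intro p _ K Q B _ _ _ _ _ _ _ S ι _ ev e D he he0 hstar P hP v hv hev hann
  exact bze_core S ι ev e D he he0 hstar _ P rfl hP v hv hev hann

end Pool.Agent.ABCP.H77
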